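import Pool.Agent.R515.GC.Seq

/-!
Arrangements of great circles with normals `(1, k, (-4)^k)`.
-/

set_option autoImplicit false

namespace Pool.Agent.R515.GC

open Set Topology Filter

abbrev E3 : Type := EuclideanSpace ℝ (Fin 3)

/-- the linear functional -/
def Fv (x : E3) (k : ℕ) : ℝ := x 0 + k * x 1 + (-4) ^ k * x 2

/-- the normals -/
noncomputable def nv (k : ℕ) : E3 := !₂[(1 : ℝ), (k : ℝ), (-4 : ℝ) ^ k]

lemma inner_nv (k : ℕ) (x : E3) : inner ℝ (nv k) x = Fv x k := by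
  unfold nv Fv
  simp [PiLp.inner_apply, Fin.sum_univ_three]
  ring

/-- the determinants -/
def D (i j k : ℕ) : ℝ := ((j : ℝ) - i) * (-4) ^ k - ((k : ℝ) - i) * (-4) ^ j +
  ((k : ℝ) - j) * (-4) ^ i

lemma D_sign {i j k : ℕ} (h1 : i < j) (h2 : j < k) : 0 < (-1 : ℝ) ^ k * D i j k := by
  obtain ⟨a, rfl⟩ : ∃ a, j = i + a := ⟨j - i, by omega⟩
  obtain ⟨b, rfl⟩ : ∃ b, k = i + a + b := ⟨k - (i + a), by omega⟩
  have ha : (1 : ℝ) ≤ a := by exact_mod_cast (by omega : 1 ≤ a)
  have hb : (1 : ℝ) ≤ b := by exact_mod_cast (by omega : 1 ≤ b)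
  have e : ∀ m : ℕ, (-4 : ℝ) ^ m = (-1) ^ m * 4 ^ m := fun m => by rw [← mul_pow]; norm_num
  unfold D
  rw [e, e, e]
  push_cast
  have hP : (0 : ℝ) < 4 ^ i := by positivity
  have hA : (1 : ℝ) ≤ 4 ^ a := one_le_pow₀ (by norm_num)
  have hB : (1 : ℝ) + b * 3 ≤ 4 ^ b := by
    have := one_add_mul_le_pow (a := (3 : ℝ)) (by norm_num) b
    norm_num at this ⊢
    linarith
  have hs : ∀ m : ℕ, ((-1 : ℝ) ^ m = 1 ∨ (-1 : ℝ) ^ m = -1) := fun m => neg_one_pow_eq_or ℝ m
  have hkk : (-1 : ℝ) ^ (i + a + b) * (-1 : ℝ) ^ (i + a + b) = 1 := by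
    rcases hs (i + a + b) with h | h <;> rw [h] <;> norm_num
  have hj : (-1 : ℝ) ^ (i + a + b) * (-1 : ℝ) ^ (i + a) ≤ 1 := by
    rcases hs (i + a + b) with h | h <;> rcases hs (i + a) with h' | h' <;> rw [h, h'] <;> norm_num
  have hi : -1 ≤ (-1 : ℝ) ^ (i + a + b) * (-1 : ℝ) ^ i := by
    rcases hs (i + a + b) with h | h <;> rcases hs i with h' | h' <;> rw [h, h'] <;> norm_num
  have key : (-1 : ℝ) ^ (i + a + b) * (((i : ℝ) + a - i) * ((-1) ^ (i + a + b) * 4 ^ (i + a + b)) -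
      ((i : ℝ) + a + b - i) * ((-1) ^ (i + a) * 4 ^ (i + a)) +
      ((i : ℝ) + a + b - (i + a)) * ((-1) ^ i * 4 ^ i)) =
      a * 4 ^ (i + a + b) * ((-1 : ℝ) ^ (i + a + b) * (-1 : ℝ) ^ (i + a + b)) -
      (a + b) * 4 ^ (i + a) * ((-1 : ℝ) ^ (i + a + b) * (-1 : ℝ) ^ (i + a)) +
      b * 4 ^ i * ((-1 : ℝ) ^ (i + a + b) * (-1 : ℝ) ^ i) := by ring
  rw [key, hkk]
  have h3 : ((a : ℝ) + b) * 4 ^ (i + a) * ((-1 : ℝ) ^ (i + a + b) * (-1 : ℝ) ^ (i + a)) ≤
      (a + b) * 4 ^ (i + a) := mul_le_of_le_one_right (by positivity) hj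
  have h4 : -((b : ℝ) * 4 ^ i) ≤ b * 4 ^ i * ((-1 : ℝ) ^ (i + a + b) * (-1 : ℝ) ^ i) := by
    have : (0 : ℝ) ≤ b * 4 ^ i := by positivity
    nlinarith
  have h5 : ((a : ℝ) + b) * 4 ^ (i + a) + b * 4 ^ i < a * 4 ^ (i + a + b) := by
    rw [show (4 : ℝ) ^ (i + a + b) = 4 ^ i * 4 ^ a * 4 ^ b by rw [pow_add, pow_add], pow_add]
    generalize (4 : ℝ) ^ i = P at *
    generalize (4 : ℝ) ^ a = Q at *
    generalize (4 : ℝ) ^ b = B at *
    have e1 : (a : ℝ) * (P * Q * (1 + b * 3)) ≤ a * (P * Q * B) := by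
      apply mul_le_mul_of_nonneg_left _ (by linarith)
      exact mul_le_mul_of_nonneg_left hB (by positivity)
    have e0 : 0 < 3 * a * Q - Q - 1 := by nlinarith
    have e2 : (a + b) * Q + b < a * (Q * (1 + b * 3)) := by
      have := mul_pos (by linarith : (0 : ℝ) < b) e0
      linarith
    have e3 : P * ((a + b) * Q + b) < P * (a * (Q * (1 + b * 3))) := mul_lt_mul_of_pos_left e2 hP
    nlinarith
  linarith

lemma rel (x : E3) (i j k l : ℕ) :
    D i j k * Fv x l = D j k l * Fv x i - D i k l * Fv x j + D i j l * Fv x k := by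
  unfold D Fv; ring

lemma four {x : E3} {i j k l : ℕ} (h1 : i < j) (h2 : j < k) (h3 : k < l) (a : 0 < Fv x i)
    (b : Fv x j < 0) (c : 0 < Fv x k) : 0 < (-1 : ℝ) ^ l * (-1 : ℝ) ^ k * Fv x l := by
  have d1 := D_sign h2 h3
  have d2 := D_sign (h1.trans h2) h3
  have d3 := D_sign h1 (h2.trans h3)
  have d4 := D_sign h1 h2
  have e : 0 < (-1 : ℝ) ^ l * (D i j k * Fv x l) := by
    rw [rel]
    have := mul_pos d1 a
    have := mul_pos d2 (neg_pos.mpr b)
    have := mul_pos d3 c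
    nlinarith
  have e2 := mul_pos e d4
  have e3 : (-1 : ℝ) ^ l * (D i j k * Fv x l) * ((-1) ^ k * D i j k) =
      (D i j k) ^ 2 * ((-1 : ℝ) ^ l * (-1 : ℝ) ^ k * Fv x l) := by ring
  rw [e3] at e2
  exact pos_of_mul_pos_right e2 (sq_nonneg _)

lemma Fv_neg (x : E3) (k : ℕ) : Fv (-x) k = - Fv x k := by
  unfold Fv; simp; ring

/-- the four-term condition for realizable sign vectors -/
lemma L4_of {n : ℕ} {x : E3} (h : ∀ k < n, Fv x k ≠ 0) : L4 n (fun k => decide (0 < Fv x k)) := by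
  intro i j k l h1 h2 h3 h4 h5 h6
  simp only [ne_eq, decide_eq_decide] at h5 h6 ⊢
  have hl := h l h4
  have hpar : (l % 2 = k % 2 → (-1 : ℝ) ^ l * (-1 : ℝ) ^ k = 1) ∧
      (l % 2 ≠ k % 2 → (-1 : ℝ) ^ l * (-1 : ℝ) ^ k = -1) := by
    rw [neg_one_pow_eq_pow_mod_two, neg_one_pow_eq_pow_mod_two (n := k)]
    rcases Nat.mod_two_eq_zero_or_one l with a | a <;>
      rcases Nat.mod_two_eq_zero_or_one k with b | b <;> rw [a, b] <;> norm_num
  by_cases hi : 0 < Fv x i
  · have hj : Fv x j < 0 := by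
      rcases lt_or_gt_of_ne (h j (by omega)) with a | a
      · exact a
      · exact absurd (iff_of_true hi a) h5
    have hk : 0 < Fv x k := by
      by_contra a
      exact h6 (iff_of_false (not_lt.mpr hj.le) a)
    have h7 := four h1 h2 h3 hi hj hk
    by_cases hp : l % 2 = k % 2
    · rw [hpar.1 hp, one_mul] at h7
      exact iff_of_true (iff_of_true h7 hk) hp
    · rw [hpar.2 hp] at h7
      refine iff_of_false (fun a => ?_) hp
      have := a.mpr hk
      linarith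
  · have hi' : Fv x i < 0 := lt_of_le_of_ne (not_lt.mp hi) (h i (by omega))
    have hj : 0 < Fv x j := by
      by_contra a
      exact h5 (iff_of_false hi a)
    have hk : Fv x k < 0 := by
      rcases lt_or_gt_of_ne (h k (by omega)) with a | a
      · exact a
      · exact absurd (iff_of_true hj a) h6
    have h7 := four (x := -x) h1 h2 h3 (by rw [Fv_neg]; linarith) (by rw [Fv_neg]; linarith)
      (by rw [Fv_neg]; linarith)
    rw [Fv_neg] at h7
    by_cases hp : l % 2 = k % 2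
    · rw [hpar.1 hp] at h7
      exact iff_of_true (iff_of_false (by linarith) (by linarith)) hp
    · rw [hpar.2 hp] at h7
      refine iff_of_false (fun a => ?_) hp
      have := a.mp (by linarith)
      linarith

lemma Fv_cont (k : ℕ) : Continuous (fun x : E3 => Fv x k) := by
  unfold Fv
  fun_prop

lemma Fv_add (x y : E3) (k : ℕ) : Fv (x + y) k = Fv x k + Fv y k := by
  unfold Fv; simp; ring

lemma Fv_smul (r : ℝ) (x : E3) (k : ℕ) : Fv (r • x) k = r * Fv x k := by
  unfold Fv; simp; ring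

/-- a flip of a realizable sign vector at a zero is realizable -/
lemma flip_of {n i : ℕ} (hi : i < n) {w : ℕ → Bool} {y : E3} (hy : Fv y i = 0)
    (hw : ∀ k < n, k ≠ i → 0 < (if w k then (1 : ℝ) else -1) * Fv y k) : L4 n (flp i w) := by
  -- a direction
  obtain ⟨d, hd⟩ : ∃ d : E3, 0 < (if w i then (-1 : ℝ) else 1) * Fv d i := by
    refine ⟨(if w i then (-1 : ℝ) else 1) • nv i, ?_⟩
    rw [Fv_smul, ← inner_nv, real_inner_self_eq_norm_sq]
    have : 0 < ‖nv i‖ ^ 2 := by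
      rw [← real_inner_self_eq_norm_sq, inner_nv]
      unfold Fv nv
      simp
      nlinarith [mul_self_nonneg ((-4 : ℝ) ^ i), mul_self_nonneg (i : ℝ)]
    split_ifs <;> linarith
  have hev : ∀ᶠ δ : ℝ in 𝓝[>] 0, ∀ k ∈ Finset.range n, k ≠ i →
      0 < (if w k then (1 : ℝ) else -1) * Fv (y + δ • d) k := by
    rw [Filter.eventually_all_finset]
    intro k hk
    rw [Finset.mem_range] at hk
    by_cases hki : k = i
    · exact Eventually.of_forall fun _ h => absurd hki h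
    · have hc : Continuous fun δ : ℝ => (if w k then (1 : ℝ) else -1) * Fv (y + δ • d) k :=
        continuous_const.mul ((Fv_cont k).comp (by fun_prop))
      have h1 : ∀ᶠ δ : ℝ in 𝓝 0, 0 < (if w k then (1 : ℝ) else -1) * Fv (y + δ • d) k := by
        apply hc.continuousAt.eventually (lt_mem_nhds _)
        simpa using hw k hk hki
      exact (h1.filter_mono nhdsWithin_le_nhds).mono fun _ h _ => h
  obtain ⟨δ, hδ, hδ0⟩ := (hev.and self_mem_nhdsWithin).exists
  have hδ0' : (0 : ℝ) < δ := hδ0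
  have hxi : 0 < (if w i then (-1 : ℝ) else 1) * Fv (y + δ • d) i := by
    rw [Fv_add, hy, zero_add, Fv_smul]
    have := mul_pos hδ0' hd
    linarith [mul_left_comm δ (if w i then (-1 : ℝ) else 1) (Fv d i)]
  have hval : ∀ k < n, decide (0 < Fv (y + δ • d) k) = flp i w k ∧ Fv (y + δ • d) k ≠ 0 := by
    intro k hk
    unfold flp
    by_cases hki : k = i
    · subst hki
      rw [Function.update_self]
      cases hwk : w k
      · rw [hwk] at hxi
        simp at hxi
        simp [hxi, hxi.ne']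
      · rw [hwk] at hxi
        simp at hxi
        simp [hxi.le, hxi.ne]
    · rw [Function.update_of_ne hki]
      have h1 := hδ k (Finset.mem_range.mpr hk) hki
      cases hwk : w k
      · rw [hwk] at h1
        simp at h1
        simp [h1.le, h1.ne]
      · rw [hwk] at h1
        simp at h1
        simp [h1, h1.ne']
  have hL := L4_of (x := y + δ • d) (fun k hk => (hval k hk).2)
  intro a b c e h1 h2 h3 h4 h5 h6
  have := hL a b c e h1 h2 h3 h4
  simp only [(hval a (by omega)).1, (hval b (by omega)).1, (hval c (by omega)).1,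
    (hval e h4).1] at this
  exact this h5 h6

/-- part of a convex cone on the sphere -/
lemma precon {P : Set E3} (hc : Convex ℝ P) (h0 : (0 : E3) ∉ P)
    (hs : ∀ y ∈ P, ∀ r : ℝ, 0 < r → r • y ∈ P) : IsPreconnected (Metric.sphere (0 : E3) 1 ∩ P) := by
  have himg : Metric.sphere (0 : E3) 1 ∩ P = (fun y : E3 => ‖y‖⁻¹ • y) '' P := by
    ext y
    constructor
    · rintro ⟨h1, h2⟩
      refine ⟨y, h2, ?_⟩
      have : ‖y‖ = 1 := by simpa using h1
      simp [this]
    · rintro ⟨z, hz, rfl⟩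
      have hz0 : z ≠ 0 := fun h => h0 (h ▸ hz)
      have hn : 0 < ‖z‖ := norm_pos_iff.mpr hz0
      refine ⟨?_, hs z hz _ (by positivity)⟩
      rw [mem_sphere_zero_iff_norm, norm_smul, norm_inv, norm_norm, inv_mul_cancel₀ hn.ne']
  rw [himg]
  apply hc.isPreconnected.image
  intro y hy
  have hy0 : y ≠ 0 := fun h => h0 (h ▸ hy)
  have hn : ‖y‖ ≠ 0 := norm_ne_zero_iff.mpr hy0
  exact (((continuous_norm.continuousAt).inv₀ hn).smul continuousAt_id).continuousWithinAt

end Pool.Agent.R515.GC
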