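import Mathlib

/-!
Sign sequences: at most five flips.
-/

set_option autoImplicit false

namespace Pool.Agent.R515.GC

/-- transition function of an automaton recognising the sign sequences; `7` is the dead state -/
def dl : Fin 8 → Bool → Fin 8
  | 0, true => 1
  | 0, false => 2
  | 1, true => 1
  | 1, false => 3
  | 2, true => 4
  | 2, false => 2
  | 3, true => 5
  | 3, false => 3
  | 4, true => 4
  | 4, false => 6
  | 5, true => 7
  | 5, false => 6
  | 6, true => 5
  | 6, false => 7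
  | 7, _ => 7

/-- the state after `k` letters -/
def run (w : ℕ → Bool) : ℕ → Fin 8
  | 0 => 0
  | k + 1 => dl (run w k) (w k)

/-- flip of a letter -/
def flp (i : ℕ) (w : ℕ → Bool) : ℕ → Bool := Function.update w i (!w i)

lemma run_congr {w w' : ℕ → Bool} {k : ℕ} (h : ∀ i < k, w i = w' i) : run w k = run w' k := by
  induction k with
  | zero => rfl
  | succ k ih =>
    unfold run
    rw [ih (fun i hi => h i (by omega)), h k (by omega)]

/-- the states of the flips which are still alive -/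
def al (w : ℕ → Bool) (k : ℕ) : Multiset (Fin 8) :=
  ((Multiset.range k).map (fun i => run (flp i w) k)).filter (· ≠ 7)

/-- one step of the configuration -/
def stp (c : Fin 8 × Multiset (Fin 8)) (x : Bool) : Fin 8 × Multiset (Fin 8) :=
  (dl c.1 x, ((c.2.map (fun t => dl t x)) + {dl c.1 (!x)}).filter (· ≠ 7))

lemma dl_seven (x : Bool) : dl 7 x = 7 := by cases x <;> rfl

lemma filter_map_dl (M : Multiset (Fin 8)) (x : Bool) :
    (M.map (fun t => dl t x)).filter (· ≠ 7) =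
      ((M.filter (· ≠ 7)).map (fun t => dl t x)).filter (· ≠ 7) := by
  induction M using Multiset.induction_on with
  | empty => simp
  | cons a M ih =>
    by_cases ha : a = 7
    · subst ha
      rw [Multiset.map_cons, dl_seven, Multiset.filter_cons_of_neg (p := (· ≠ 7)) _ (by simp),
        Multiset.filter_cons_of_neg (p := (· ≠ 7)) _ (by simp), ih]
    · rw [Multiset.map_cons, Multiset.filter_cons_of_pos (p := (· ≠ 7)) _ ha, Multiset.map_cons]
      by_cases hb : dl a x = 7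
      · rw [Multiset.filter_cons_of_neg (p := (· ≠ 7)) _ (by simpa using hb),
          Multiset.filter_cons_of_neg (p := (· ≠ 7)) _ (by simpa using hb), ih]
      · rw [Multiset.filter_cons_of_pos (p := (· ≠ 7)) _ hb,
          Multiset.filter_cons_of_pos (p := (· ≠ 7)) _ hb, ih]

lemma al_succ (w : ℕ → Bool) (k : ℕ) :
    (run w (k + 1), al w (k + 1)) = stp (run w k, al w k) (w k) := by
  unfold stp
  refine Prod.ext rfl ?_
  unfold al
  simp only
  rw [Multiset.range_succ, Multiset.map_cons]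
  have h1 : run (flp k w) (k + 1) = dl (run w k) (!w k) := by
    change dl (run (flp k w) k) (flp k w k) = _
    congr 1
    · apply run_congr
      intro i hi
      unfold flp
      rw [Function.update_of_ne (by omega)]
    · unfold flp
      rw [Function.update_self]
  have h2 : (Multiset.range k).map (fun i => run (flp i w) (k + 1)) =
      ((Multiset.range k).map (fun i => run (flp i w) k)).map (fun t => dl t (w k)) := by
    rw [Multiset.map_map]
    apply Multiset.map_congr rfl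
    intro i hi
    rw [Multiset.mem_range] at hi
    change dl (run (flp i w) k) (flp i w k) = dl (run (flp i w) k) (w k)
    congr 1
    unfold flp
    rw [Function.update_of_ne (by omega)]
  rw [h1, h2, Multiset.filter_add, ← filter_map_dl, ← Multiset.filter_add, ← Multiset.singleton_add,
    add_comm]

/-- the reachable configurations -/
def RR : List (Fin 8 × Multiset (Fin 8)) := [
  (0, 0), (1, {3, 4}), (1, {3, 4, 5}), (1, {2}), (2, {3, 4}), (2, {3, 4, 6}), (2, {1}),
  (3, {3, 3, 5}), (3, {3, 3, 5, 6}), (3, {2, 3, 5}), (3, {2, 3, 5, 6}), (3, {1, 3, 6}),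
  (3, {1, 3, 6, 6}), (3, {1, 2}), (4, {4, 4, 6}), (4, {4, 4, 5, 6}), (4, {2, 4, 5}),
  (4, {2, 4, 5, 5}), (4, {1, 4, 6}), (4, {1, 4, 5, 6}), (4, {1, 2}), (5, {5, 5, 5}),
  (5, {5, 5, 5, 5}), (5, {5, 5, 5, 5, 5}), (5, {4, 5, 5}), (5, {4, 5, 5, 5}), (5, {4, 4, 5}),
  (5, {4, 4, 5, 5}), (5, {4, 4, 5, 5, 5}), (5, {3, 5, 5}), (5, {3, 5, 5, 5}), (5, {3, 4, 5}),
  (5, {3, 4, 5, 5}), (5, {1, 3, 5, 5}), (5, {1, 3, 5, 5, 5}), (5, {1, 3, 4}), (6, {6, 6, 6}),
  (6, {6, 6, 6, 6}), (6, {6, 6, 6, 6, 6}), (6, {4, 6, 6}), (6, {4, 6, 6, 6}), (6, {3, 6, 6}),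
  (6, {3, 6, 6, 6}), (6, {3, 4, 6}), (6, {3, 4, 6, 6}), (6, {3, 3, 6}), (6, {3, 3, 6, 6}),
  (6, {3, 3, 6, 6, 6}), (6, {2, 4, 6, 6}), (6, {2, 4, 6, 6, 6}), (6, {2, 3, 4})]

lemma RR_card : ∀ c ∈ RR, Multiset.card c.2 ≤ 5 := by decide +kernel

lemma RR_step : ∀ c ∈ RR, ∀ x : Bool, dl c.1 x ≠ 7 → stp c x ∈ RR := by decide +kernel

lemma mem_RR (w : ℕ → Bool) (k : ℕ) (h : run w k ≠ 7) : (run w k, al w k) ∈ RR := by
  induction k with
  | zero => exact List.mem_cons_self
  | succ k ih =>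
    have h1 : run w k ≠ 7 := by
      intro h2
      apply h
      unfold run
      rw [h2, dl_seven]
    rw [al_succ]
    exact RR_step _ (ih h1) _ h

/-- if `w` is accepted then at most five flips are accepted -/
lemma flips (w : ℕ → Bool) (n : ℕ) (h : run w n ≠ 7) :
    ((Finset.range n).filter (fun i => run (flp i w) n ≠ 7)).card ≤ 5 := by
  have h1 := RR_card _ (mem_RR w n h)
  simp only at h1
  refine le_trans (le_of_eq ?_) h1
  unfold al
  rw [Multiset.filter_map, Multiset.card_map]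
  rfl

/-- four-term condition -/
def L4 (n : ℕ) (w : ℕ → Bool) : Prop := ∀ i j k l, i < j → j < k → k < l → l < n → w i ≠ w j →
  w j ≠ w k → (w l = w k ↔ l % 2 = k % 2)

/-- the meaning of the states -/
def Mn (w : ℕ → Bool) (k : ℕ) : Fin 8 → Prop
  | 0 => k = 0
  | 1 => ∃ i < k, w i = true
  | 2 => ∃ i < k, w i = false
  | 3 => ∃ i j, i < j ∧ j < k ∧ w i = true ∧ w j = false
  | 4 => ∃ i j, i < j ∧ j < k ∧ w i = false ∧ w j = true
  | 5 => ∃ i j m l, i < j ∧ j < m ∧ m ≤ l ∧ k = l + 1 ∧ w i ≠ w j ∧ w j ≠ w m ∧ w l = true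
  | 6 => ∃ i j m l, i < j ∧ j < m ∧ m ≤ l ∧ k = l + 1 ∧ w i ≠ w j ∧ w j ≠ w m ∧ w l = false
  | 7 => False

lemma force {n : ℕ} {w : ℕ → Bool} (h : L4 n w) {i j m l : ℕ} (h1 : i < j) (h2 : j < m)
    (h3 : m ≤ l) (h4 : l + 1 < n) (h5 : w i ≠ w j) (h6 : w j ≠ w m) : w (l + 1) ≠ w l := by
  have a := h i j m (l + 1) h1 h2 (by omega) h4 h5 h6
  rcases h3.eq_or_lt with h7 | h7
  · subst h7
    intro h8
    have := a.1 h8
    omega
  · have b := h i j m l h1 h2 h7 (by omega) h5 h6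
    intro h8
    rw [h8] at a
    have := a.symm.trans b
    omega

lemma mn_run {n : ℕ} {w : ℕ → Bool} (h : L4 n w) (k : ℕ) (hk : k ≤ n) : Mn w k (run w k) := by
  induction k with
  | zero => rfl
  | succ k ih =>
    have ih' := ih (by omega)
    change Mn w (k + 1) (dl (run w k) (w k))
    generalize run w k = s at ih'
    cases hw : w k
    · match s, ih' with
      | 0, _ => exact ⟨k, by omega, hw⟩
      | 1, ⟨i, hi, hi'⟩ => exact ⟨i, k, hi, by omega, hi', hw⟩
      | 2, ⟨i, hi, hi'⟩ => exact ⟨i, by omega, hi'⟩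
      | 3, ⟨i, j, h1, h2, h3, h4⟩ => exact ⟨i, j, h1, by omega, h3, h4⟩
      | 4, ⟨i, j, h1, h2, h3, h4⟩ =>
        exact ⟨i, j, k, k, h1, h2, le_rfl, rfl, by rw [h3, h4]; decide, by rw [h4, hw]; decide, hw⟩
      | 5, ⟨i, j, m, l, h1, h2, h3, h4, h5, h6, h7⟩ =>
        exact ⟨i, j, m, k, h1, h2, by omega, rfl, h5, h6, hw⟩
      | 6, ⟨i, j, m, l, h1, h2, h3, h4, h5, h6, h7⟩ =>
        subst h4
        exact absurd (hw.trans h7.symm) (force h h1 h2 h3 (by omega) h5 h6)
      | 7, h7 => exact h7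
    · match s, ih' with
      | 0, _ => exact ⟨k, by omega, hw⟩
      | 1, ⟨i, hi, hi'⟩ => exact ⟨i, by omega, hi'⟩
      | 2, ⟨i, hi, hi'⟩ => exact ⟨i, k, hi, by omega, hi', hw⟩
      | 3, ⟨i, j, h1, h2, h3, h4⟩ =>
        exact ⟨i, j, k, k, h1, h2, le_rfl, rfl, by rw [h3, h4]; decide, by rw [h4, hw]; decide, hw⟩
      | 4, ⟨i, j, h1, h2, h3, h4⟩ => exact ⟨i, j, h1, by omega, h3, h4⟩
      | 5, ⟨i, j, m, l, h1, h2, h3, h4, h5, h6, h7⟩ =>
        subst h4
        exact absurd (hw.trans h7.symm) (force h h1 h2 h3 (by omega) h5 h6)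
      | 6, ⟨i, j, m, l, h1, h2, h3, h4, h5, h6, h7⟩ =>
        exact ⟨i, j, m, k, h1, h2, by omega, rfl, h5, h6, hw⟩
      | 7, h7 => exact h7

lemma run_ne {n : ℕ} {w : ℕ → Bool} (h : L4 n w) : run w n ≠ 7 := by
  intro h1
  have := mn_run h n le_rfl
  rw [h1] at this
  exact this

/-- at most five flips -/
lemma five {n : ℕ} {w : ℕ → Bool} (h : L4 n w) (I : Finset ℕ) (hI : ∀ i ∈ I, i < n)
    (hf : ∀ i ∈ I, L4 n (flp i w)) : I.card ≤ 5 := by
  refine (Finset.card_le_card ?_).trans (flips w n (run_ne h))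
  intro i hi
  rw [Finset.mem_filter, Finset.mem_range]
  exact ⟨hI i hi, run_ne (hf i hi)⟩

end Pool.Agent.R515.GC
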